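import Pool.Agent.Lib.MP_c5d73d_lc.F.Defs

/-!
# The universality axiom for sets of size `ℵ₁` in a universe

As in `Pool.Agent.Lib.MP_100a6c_lc.Defs` and `Pool.Agent.Lib.MP_c5d73d_lc.F.Defs`, all notions are
written once, for an arbitrary `Str B U`: a collection `U` with membership and equality relations
with values in a complete Boolean algebra `B`.  For `B = Prop` this is the usual meaning in the
structure `U`; for `VB B` it is the Boolean value of the notion in the Boolean-valued universe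
`V^B`.  `w` is always the set of natural numbers; the points of the Cantor space are the subsets
of `w`, and the basic open sets are the sets `{x : x ∩ n = a ∩ n}`, `n ∈ w`, `a ⊆ w`.
-/

universe u v w

open scoped symmDiff

namespace Pool.Agent.Lib.MP_a78e1f_lc

open Pool.Agent.Lib.MP_100a6c_lc
open Pool.Agent.Lib.MP_c5d73d_lc.F (isOm)

variable {B : Type v} {U : Type w} [CompleteBooleanAlgebra B] (S : Str B U)

/-- `x` has cardinality `ℵ₁`. -/
def isAl1 (w x : U) : B := ⨆ o, S.isSucc o w ⊓ S.leCard x o ⊓ S.leCard o x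

/-- `x ∩ n = y ∩ n`. -/
def agb (n x y : U) : B := ⨅ k, S.mem k n ⇨ (S.mem k x ⇔ S.mem k y)

/-- `Z` is an `ℵ₁`-dense subset of the Cantor space: for every basic open set the set `D` of the
elements of `Z` in it has cardinality `ℵ₁`. -/
def isAl1Dense (w Z : U) : B :=
  (⨅ x, S.mem x Z ⇨ S.sub x w) ⊓
  ⨅ n, ⨅ a, ⨅ D, S.mem n w ⊓ S.sub a w ⊓ (⨅ x, S.mem x D ⇔ (S.mem x Z ⊓ agb S n x a)) ⇨
    isAl1 S w D

/-- `f` is a homeomorphism of `A` onto a subspace of `Z` (`A` and `Z` are sets of points of the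
Cantor space): a function from `A` to `Z` which is injective, continuous, and has a continuous
inverse. -/
def isEmb (w A Z f : U) : B :=
  S.isFun f A Z ⊓ (⨅ x, ⨅ x', ⨅ y, S.rel f x y ⊓ S.rel f x' y ⇨ S.eq x x') ⊓
  (⨅ x, ⨅ y, ⨅ n, S.rel f x y ⊓ S.mem n w ⇨
    ⨆ m, S.mem m w ⊓ ⨅ x', ⨅ y', S.rel f x' y' ⊓ agb S m x x' ⇨ agb S n y y') ⊓
  ⨅ x, ⨅ y, ⨅ n, S.rel f x y ⊓ S.mem n w ⇨
    ⨆ m, S.mem m w ⊓ ⨅ x', ⨅ y', S.rel f x' y' ⊓ agb S m y y' ⇨ agb S n x x'

/-- The axiom `U_{ℵ₁}(2^ω)`: there is an `ℵ₁`-dense subset `Z` of the Cantor space such that every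
subset `A` of the Cantor space of cardinality `ℵ₁` is homeomorphic to a subspace of `Z`. -/
def UAX : B :=
  ⨆ w, ⨆ Z, isOm S w ⊓ isAl1Dense S w Z ⊓
    ⨅ A, (⨅ x, S.mem x A ⇨ S.sub x w) ⊓ isAl1 S w A ⇨ ⨆ f, isEmb S w A Z f

end Pool.Agent.Lib.MP_a78e1f_lc
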