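import Pool.Agent.Lib.MP_a78e1f_lc.T.Iface
import Pool.Agent.Lib.MP_a78e1f_lc.U.Defs
import Pool.Agent.Lib.MP_6d445e_gt.V.Iface3
import Pool.Agent.Lib.MP_6d445e_gt.W.Iface4
import Pool.Agent.Lib.MP_e6fef2_lc.V.Iface

/-!
# Statements of the modules, part 3: the iteration, and the Boolean-valued universe

The proofs are in `Paper3.md`.
-/

universe u v w

open Cardinal Filter MeasureTheory

open scoped symmDiff

namespace Pool.Agent.Lib.MP_a78e1f_lc

open Pool.Agent.Lib.MP_100a6c_lc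
open Pool.Agent.Lib.MP_c5d73d_lc.F (pr isOm ZFC)
open Pool.Agent.Lib.MP_e6fef2_lc
open Pool.Agent.Lib.MP_6d445e_gt (Idw Ult ae IsMil)
open BName
open H36 (om nn)

/-! ## Countable support iterations -/

/-- A countable support iteration along the well-order `I` of the forcing with trees in the family
`𝒯`: a chain `A i` of complete Boolean algebras with complete embeddings `f i j : A i → A j`,
`i ≤ j`; the first algebra is the two-element algebra; the algebra after `A i` is the extension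
of `A i` by the forcing; at limit stages `j` the (nonzero) elements with countable support are
dense, and every thread along a sequence of stages below `j` has an infimum with the right
projection; `B` is the limit of the chain in the same sense. -/
structure CSI (𝒯 : Set (List ℕ) → Prop) {I : Type u} [LinearOrder I] (A : I → Type u)
    [∀ i, CompleteBooleanAlgebra (A i)] (f : ∀ i j, A i → A j) (B : Type u)
    [CompleteBooleanAlgebra B] (e : ∀ i, A i → B) : Prop where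
  ch : IsCh A f
  zero : ∀ i, (∀ j, i ≤ j) → (⊥ : A i) ≠ ⊤ ∧ ∀ a : A i, a = ⊥ ∨ a = ⊤
  succ : ∀ i j, i ⋖ j → ∃ φ : tC 𝒯 (A i) → A j, IsCE φ ∧ Function.Surjective φ ∧
    ∀ a, φ (tE 𝒯 (A i) a) = f i j a
  tp : ∀ j, Order.IsSuccLimit j → TPat A f j
  dp : ∀ j, Order.IsSuccLimit j → DPat A f j
  top : IsTop A f e
  ttp : TP A f e
  tdp : DP A e

/-- EXI: countable support iterations exist. -/
def ExiStatement : Prop := ∀ 𝒯 : Set (List ℕ) → Prop, TFam 𝒯 → ∀ (I : Type u) [LinearOrder I]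
  [WellFoundedLT I] [Nonempty I], ∃ (A : I → Type u) (_ : ∀ i, CompleteBooleanAlgebra (A i))
    (f : ∀ i j, A i → A j) (B : Type u) (_ : CompleteBooleanAlgebra B) (e : ∀ i, A i → B),
      CSI 𝒯 A f B e

/-- A property of complete embeddings which is preserved. -/
structure Pres (Φ : ∀ (A C : Type u) [CompleteBooleanAlgebra A] [CompleteBooleanAlgebra C],
    (A → C) → Prop) : Prop where
  comp : ∀ (A B C : Type u) [CompleteBooleanAlgebra A] [CompleteBooleanAlgebra B]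
    [CompleteBooleanAlgebra C] (f : A → B) (g : B → C), IsCE f → IsCE g → Φ A B f → Φ B C g →
      Φ A C fun a => g (f a)
  iso : ∀ (A B : Type u) [CompleteBooleanAlgebra A] [CompleteBooleanAlgebra B] (f : A → B),
    IsCE f → Function.Surjective f → Φ A B f
  pe : ∀ (A B : Type u) [CompleteBooleanAlgebra A] [CompleteBooleanAlgebra B] (f : A → B),
    IsCE f → Φ A B f → PE f
  lim : ∀ (L : Type u) [LinearOrder L] (A : L → Type u) [∀ i, CompleteBooleanAlgebra (A i)]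
    (f : ∀ i j, A i → A j) (C : Type u) [CompleteBooleanAlgebra C] (e : ∀ i, A i → C),
    IsCh A f → IsTop A f e → TP A f e → DP A e →
    (∀ i j, i ≤ j → Φ (A i) (A j) (f i j)) → ∀ i, Φ (A i) C (e i)

/-- IND: preserved properties hold in countable support iterations. -/
def IndStatement : Prop := ∀ Φ : ∀ (A C : Type u) [CompleteBooleanAlgebra A]
  [CompleteBooleanAlgebra C], (A → C) → Prop, Pres Φ → ∀ 𝒯 : Set (List ℕ) → Prop, TFam 𝒯 →
  (∀ (A : Type u) [CompleteBooleanAlgebra A], Φ A (tC 𝒯 A) (tE 𝒯 A)) →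
  ∀ (I : Type u) [LinearOrder I] [WellFoundedLT I] [Nonempty I] (A : I → Type u)
  [∀ i, CompleteBooleanAlgebra (A i)] (f : ∀ i j, A i → A j) (B : Type u)
  [CompleteBooleanAlgebra B] (e : ∀ i, A i → B), CSI 𝒯 A f B e →
    (∀ i j, i ≤ j → Φ (A i) (A j) (f i j)) ∧ (∀ i, Φ (A i) B (e i)) ∧ (∀ j, TPat A f j) ∧
    (∀ i, Prp (A i)) ∧ Prp B ∧ (⊥ : B) ≠ ⊤

/-- CCVP: properness implies countable covering. -/
def CcvpStatement : Prop := ∀ (B : Type u) [CompleteBooleanAlgebra B], Prp B → CCV B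

/-- DMT: a small dense set of the extension by a tree forcing. -/
def DmtStatement : Prop := ∀ 𝒯 : Set (List ℕ) → Prop, TFam 𝒯 → ∀ (A : Type u)
  [CompleteBooleanAlgebra A], Prp A → ∀ M : Set A, SigC M →
  (∀ a : A, a ≠ ⊥ → ∃ m ∈ M, m ≠ ⊥ ∧ m ≤ a) → ∀ M' : Set (tC 𝒯 A), (∀ m ∈ M, tE 𝒯 A m ∈ M') →
  (∀ a ∈ M, ∀ τ : TX 𝒯 A, (∀ t, τ.1 t ∈ M) → tE 𝒯 A a ⊓ tG τ ∈ M') →
    ∀ c : tC 𝒯 A, c ≠ ⊥ → ∃ m ∈ M', m ≠ ⊥ ∧ m ≤ c

/-- SML: small dense `σ`-subalgebras. -/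
def SmlStatement : Prop := ∀ (κ : Cardinal.{u}) (I : Type u) [LinearOrder I] [WellFoundedLT I],
  Idw κ I → ∀ 𝒯 : Set (List ℕ) → Prop, TFam 𝒯 → ∀ (A : I → Type u)
  [∀ i, CompleteBooleanAlgebra (A i)] (f : ∀ i j, A i → A j) (B : Type u)
  [CompleteBooleanAlgebra B] (e : ∀ i, A i → B), CSI 𝒯 A f B e →
  (∀ i j, i ≤ j → PE (f i j)) → (∀ i, Prp (A i)) → ∃ M : ∀ i, Set (A i), (∀ i, SigC (M i)) ∧
    (∀ i, #(M i) < κ) ∧ (∀ i (a : A i), a ≠ ⊥ → ∃ m ∈ M i, m ≠ ⊥ ∧ m ≤ a) ∧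
    ∀ i j, i ≤ j → ∀ m ∈ M i, f i j m ∈ M j

/-- KCN: the chain condition of `B`, and every element is old. -/
def KcnStatement : Prop := ∀ (κ : Cardinal.{u}) (I : Type u) [LinearOrder I] [WellFoundedLT I],
  Idw κ I → ∀ (A : I → Type u) [∀ i, CompleteBooleanAlgebra (A i)] (f : ∀ i j, A i → A j)
  (M : ∀ i, Set (A i)), IsCh A f → (∀ j, Order.IsSuccLimit j → DPat A f j) →
  (∀ i, #(M i) < κ) → (∀ i (a : A i), a ≠ ⊥ → ∃ m ∈ M i, m ≠ ⊥ ∧ m ≤ a) →
  ∀ (B : Type u) [CompleteBooleanAlgebra B] (e : ∀ i, A i → B), IsTop A f e → DP A e →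
    KCA I B ∧ ∀ b : B, ∃ i, ∃ a : A i, b = e i a

/-- RLB: small families of names of points come from an earlier stage. -/
def RlbStatement : Prop := ∀ (κ : Cardinal.{u}) (I : Type u) [LinearOrder I] [WellFoundedLT I],
  Idw κ I → ∀ (A : I → Type u) [∀ i, CompleteBooleanAlgebra (A i)] (f : ∀ i j, A i → A j)
  (B : Type u) [CompleteBooleanAlgebra B] (e : ∀ i, A i → B), IsTop A f e →
  (∀ b : B, ∃ i, ∃ a : A i, b = e i a) → ∀ T : Type u, #T < κ → ∀ x : T → ℕ → B,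
    ∃ i, ∃ x' : T → ℕ → A i, ∀ t n, x t n = e i (x' t n)

/-- Free bits in the extension by the tree forcing. -/
def Bit (𝒯 : Set (List ℕ) → Prop) : Prop := ∀ (A : Type u) [CompleteBooleanAlgebra A],
  ∃ b : tC 𝒯 A, prj (tE 𝒯 A) b = ⊤ ∧ prj (tE 𝒯 A) bᶜ = ⊤

/-- BITS. -/
def BitsStatement : Prop := Bit.{u} IsMil ∧ Bit.{u} IsLav ∧ Bit.{u} IsSac

/-- COL: the points of stage `i` are enumerated in order type `ω₁` at a later stage. -/
def ColStatement : Prop := ∀ (κ : Cardinal.{u}) (I : Type u) [LinearOrder I] [WellFoundedLT I],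
  Idw κ I → ∀ 𝒯 : Set (List ℕ) → Prop, Bit.{u} 𝒯 → ∀ (A : I → Type u)
  [∀ i, CompleteBooleanAlgebra (A i)] (f : ∀ i j, A i → A j) (B : Type u)
  [CompleteBooleanAlgebra B] (e : ∀ i, A i → B), CSI 𝒯 A f B e → ∀ i, ∃ j,
    ∃ cx : W.{u} → ℕ → A j, i ≤ j ∧ ∀ r : ℕ → A i, ⨆ ξ, eqr (fun n => f i j (r n)) (cx ξ) = ⊤

/-! ## No embedding, in the typed form -/

section

variable {B : Type u} [CompleteBooleanAlgebra B]

/-- The Boolean value of: `x` and `y` agree below `m`. -/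
def agn (m : ℕ) (x y : ℕ → B) : B := ⨅ k, ⨅ _ : k < m, x k ⇔ y k

/-- `F` is an embedding of the set of all `x t` into the set of all `z ξ`, with value at
least `Γ`. -/
structure TEmb (Γ : B) {T : Type u} (x : T → ℕ → B) (z : W.{u} → ℕ → B) (F : T → ℕ → B) :
    Prop where
  val : ∀ t, Γ ≤ ⨆ ξ, eqr (F t) (z ξ)
  cont : ∀ t n, Γ ≤ ⨆ m : ℕ, ⨅ t', agn m (x t) (x t') ⇨ agn n (F t) (F t')
  inv : ∀ t n, Γ ≤ ⨆ m : ℕ, ⨅ t', agn m (F t) (F t') ⇨ agn n (x t) (x t')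

variable (B) in
/-- For every family `z` of `ℵ₁` names of points of the Cantor space there is a set of names `x t`
which has size `ℵ₁` (in `V^B`) and does not embed into the set of all `z ξ`. -/
def NoEmb : Prop := ∀ z : W.{u} → ℕ → B, ∃ (T : Type u) (x : T → ℕ → B),
  (∃ cx : W.{u} → ℕ → B, ∀ t, ⨆ ξ, eqr (x t) (cx ξ) = ⊤) ∧
  (∀ r : ℕ → Bool, ∃ t, ∀ n, x t n = if r n then ⊤ else ⊥) ∧
  ∀ Γ : B, Γ ≠ ⊥ → ∀ F, ¬ TEmb Γ x z F

/-! ## The Boolean-valued universe -/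

/-- The name of the point of the Cantor space with digits `x`. -/
noncomputable def rlN (x : ℕ → B) : BName B :=
  mk (ULift.{u} ℕ) (fun n => check (nn n.down)) fun n => x n.down

/-- The name of the set of all `x t`. -/
noncomputable def stN {T : Type u} (x : T → ℕ → B) : BName B :=
  mk T (fun t => rlN (x t)) fun _ => ⊤

end

/-- VZ: the enumeration of `Z`. -/
def VzStatement : Prop := ∀ (B : Type u) [CompleteBooleanAlgebra B], CCV B →
  ∀ (Γ : B) (w Z : BName B), Γ ≤ isOm (VB B) w → Γ ≤ isAl1Dense (VB B) w Z →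
    ∃ z : W.{u} → BName B, (∀ ξ, Γ ≤ bmem (z ξ) Z) ∧ (∀ x, Γ ⊓ bmem x Z ≤ ⨆ ξ, beq x (z ξ)) ∧
      Γ ≤ beq w (check om) ∧ ∀ x, Γ ⊓ bmem x Z ≤ (VB B).sub x (check om)

/-- VC: the set of all `x t` has cardinality `ℵ₁`. -/
def VcStatement : Prop := ∀ (B : Type u) [CompleteBooleanAlgebra B], CCV B →
  (∀ (x : ℕ → B) (n : ℕ), bmem (check (nn n)) (rlN x) = x n) ∧
  (∀ x y : ℕ → B, beq (rlN x) (rlN y) = eqr x y) ∧
  (∀ y : BName B, (VB B).sub y (check om) ≤ beq y (rlN fun n => bmem (check (nn n)) y)) ∧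
  (∀ (x y : ℕ → B) (n : ℕ), agb (VB B) (check (nn n)) (rlN x) (rlN y) = agn n x y) ∧
  ∀ (T : Type u) (x : T → ℕ → B), (∃ cx : W.{u} → ℕ → B, ∀ t, ⨆ ξ, eqr (x t) (cx ξ) = ⊤) →
    (∀ r : ℕ → Bool, ∃ t, ∀ n, x t n = if r n then ⊤ else ⊥) →
    isAl1 (VB B) (check om) (stN x) = ⊤ ∧
    (⨅ y, (VB B).mem y (stN x) ⇨ (VB B).sub y (check om)) = ⊤

/-- VF: from an embedding in `V^B` to a typed embedding. -/
def VfStatement : Prop := ∀ (B : Type u) [CompleteBooleanAlgebra B] (Γ : B) (T : Type u)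
  (x : T → ℕ → B) (Z f : BName B) (z : W.{u} → BName B),
  (∀ y, Γ ⊓ bmem y Z ≤ ⨆ ξ, beq y (z ξ)) → (∀ y, Γ ⊓ bmem y Z ≤ (VB B).sub y (check om)) →
  Γ ≤ isEmb (VB B) (check om) (stN x) Z f →
    ∃ F : T → ℕ → B, TEmb Γ x (fun ξ n => bmem (check (nn n)) (z ξ)) F

/-- VU: `U_{ℵ₁}` fails in the Boolean-valued universe. -/
def VuStatement : Prop := ∀ (B : Type u) [CompleteBooleanAlgebra B], Prp B → NoEmb B →
  UAX (VB B) = ⊥

/-- TNE: no embedding, for the extension by an iteration. -/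
def TneStatement : Prop := ∀ (κ : Cardinal.{u}) (I : Type u) [LinearOrder I] [WellFoundedLT I],
  Idw κ I → ∀ 𝒯 : Set (List ℕ) → Prop, TFam 𝒯 → StS.{u} 𝒯 → Bit.{u} 𝒯 →
  (∀ (A : Type u) [CompleteBooleanAlgebra A], PRX (tE 𝒯 A)) → ∀ (A : I → Type u)
  [∀ i, CompleteBooleanAlgebra (A i)] (f : ∀ i j, A i → A j) (B : Type u)
  [CompleteBooleanAlgebra B] (e : ∀ i, A i → B), CSI 𝒯 A f B e → NoEmb B

end Pool.Agent.Lib.MP_a78e1f_lc
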